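import Pool.Agent.Lib.MP_6b029b_lc.Main

open Cardinal

namespace Pool.Agent.Results.MP_6b029b_lc.NotUniversal

open Pool.Agent.Lib.MP_6b029b_lc

/-- If `(𝒫(ω), ⊆)` has the weak Freese–Nation property, `2^ℵ₀ = ℵ₂` and `◇(S²₁)` holds, then some
nonprincipal ultrafilter `u` on `ω` has the property that the well-ordered set `ω₂`, whose
cardinality is `2^ℵ₀`, has no order-embedding into the ultrapower `∏_u (𝒫(ω), ⊆)`.
All three hypotheses hold after adding `ℵ₂` Cohen reals to `L`; hence ZFC does not prove that all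
these ultrapowers are universal for partially ordered sets of cardinality `2^ℵ₀`. -/
theorem result (hW : WFN ℕ) (hc : Cardinal.continuum.{0} = ℵ_ 2) (hD : DiamondS21) :
    ∃ u : Ultrafilter ℕ, (∀ n : ℕ, {n} ∉ u) ∧
      #((Ordinal.omega 2 : Ordinal.{0}).ToType) = Cardinal.continuum.{0} ∧
      IsEmpty ((Ordinal.omega 2 : Ordinal.{0}).ToType ↪o (u : Filter ℕ).Germ (Set ℕ)) :=
  main hW hc hD

end Pool.Agent.Results.MP_6b029b_lc.NotUniversal
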