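import Pool.Agent.Lib.MP_6b029b_lc.H57.Final

universe u

namespace Pool.Agent.Results.MP_6b029b_lc.UniversalityFails

open Pool.Agent.Lib.MP_100a6c_lc Pool.Agent.Lib.MP_c5d73d_lc.F Pool.Agent.Lib.MP_6b029b_lc.H57

/-- There is a model `(M, E)` of ZFC in which it is false that for every nonprincipal ultrafilter `u`
on `ω` the ultrapower of `(P(ω), ⊆)` by `u` is universal for partially ordered sets of cardinality
`2^ω`: in `(M, E)` there are a nonprincipal ultrafilter `u` on `ω` and a partially ordered set of
cardinality `2^ω` without order-embedding into the ultrapower of `(P(ω), ⊆)` by `u`.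
So ZFC does not prove the universality statement. -/
theorem result : ∃ (M : Type (u + 1)) (E : M → M → Prop),
    ZFC (Str.mk E Eq) ∧ ¬ Universality (Str.mk E Eq) :=
  final

end Pool.Agent.Results.MP_6b029b_lc.UniversalityFails
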